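import Mathlib

namespace Pool.Agent.Results.MP_33f3d1_co.NotUnique

/-- `Y` is a relating retract of the poset `X`: there is an order-preserving map `r` of `X`
onto `Y` that fixes `Y` pointwise and such that `x` and `r x` are comparable for `x` not in `Y`. -/
def IsRelatingRetract {X : Type} [PartialOrder X] (Y : Set X) : Prop :=
  ∃ r : X → X, Monotone r ∧ (∀ x, r x ∈ Y) ∧ (∀ y ∈ Y, r y = y) ∧
    ∀ x, x ∉ Y → (x ≤ r x ∨ r x ≤ x)

/-- `Y` is a minimal relating retract of `X`: no proper nonempty subset of `Y` is a relating
retract of `X`. -/
def IsMinimalRelatingRetract {X : Type} [PartialOrder X] (Y : Set X) : Prop :=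
  IsRelatingRetract Y ∧ ∀ Z : Set X, Z ⊂ Y → Z.Nonempty → ¬ IsRelatingRetract Z

/-- the five element set -/
inductive P : Type
  | a | b | c | d | t
  deriving DecidableEq

open P

instance : Fintype P := ⟨{a, b, c, d, t}, by intro x; cases x <;> decide⟩

/-- the strict order relations are `a < c`, `a < d`, `b < d` and everything is below `t` -/
def leb : P → P → Bool
  | _, t => true
  | a, c => true
  | a, d => true
  | b, d => true
  | a, a => true
  | b, b => true
  | c, c => true
  | d, d => true
  | _, _ => false

instance : PartialOrder P where
  le x y := leb x y = true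
  le_refl := by decide
  le_trans := by decide
  le_antisymm := by decide

instance : DecidableRel ((· ≤ ·) : P → P → Prop) := fun x y => inferInstanceAs (Decidable (leb x y = true))

theorem result : ∃ (X : Type) (_ : Fintype X) (_ : PartialOrder X) (Y Z : Set X),
    IsMinimalRelatingRetract Y ∧ IsMinimalRelatingRetract Z ∧ ¬ Nonempty (Y ≃o Z) := by
  refine ⟨P, inferInstance, inferInstance, {t}, {a, d}, ⟨?_, ?_⟩, ⟨?_, ?_⟩, ?_⟩
  · refine ⟨fun _ => t, fun _ _ _ => le_refl _, fun _ => rfl, ?_, ?_⟩
    · rintro y rfl
      rfl
    · intro x _
      left
      revert x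
      decide
  · intro Z hZ hne
    exact absurd (Set.ssubset_singleton_iff.mp hZ) hne.ne_empty
  · refine ⟨fun x => match x with
      | a => a
      | b => d
      | c => a
      | d => d
      | t => d, ?_, ?_, ?_, ?_⟩
    · intro x y
      revert x y
      decide
    · intro x
      cases x <;> simp
    · rintro y (rfl | rfl) <;> rfl
    · intro x _
      cases x <;> decide
  · rintro Z hZ ⟨z, hz⟩ ⟨r, -, hr, hfix, hcomp⟩
    have hsub := hZ.subset
    by_cases ha : a ∈ Z
    · by_cases hd : d ∈ Z
      · apply hZ.not_subset
        rintro x (rfl | rfl)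
        · exact ha
        · exact hd
      · have hb : r b = a := by
          rcases hsub (hr b) with h | h
          · exact h
          · exact absurd (h ▸ hr b) hd
        have hbZ : b ∉ Z := fun h => by
          have := hsub h
          simp at this
        have := hcomp b hbZ
        rw [hb] at this
        revert this
        decide
    · have hc : r c = d := by
        rcases hsub (hr c) with h | h
        · exact absurd (h ▸ hr c) ha
        · exact h
      have hcZ : c ∉ Z := fun h => by
        have := hsub h
        simp at this
      have := hcomp c hcZ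
      rw [hc] at this
      revert this
      decide
  · rintro ⟨e⟩
    have h1 := e.symm ⟨a, by simp⟩
    have h2 : e.symm ⟨a, by simp⟩ = e.symm ⟨d, by simp⟩ := by
      apply Subtype.ext
      rw [(e.symm ⟨a, by simp⟩).2, (e.symm ⟨d, by simp⟩).2]
    have h3 := e.symm.injective h2
    simp at h3

end Pool.Agent.Results.MP_33f3d1_co.NotUnique
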